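import Pool.Agent.Lib.MP_e5e566_pr.Sanity

open MeasureTheory Filter Topology Pool.Agent.Lib.MP_e5e566_pr
open scoped NNReal ENNReal

namespace Pool.Agent.Results.MP_e5e566_pr.Q1LogLower

/-- Among mobile traps, under the annealed measure (a probability measure), the maximal
displacement up to time `t` exceeds `c (t log t)^{1/3}` with probability tending to one. -/
theorem result {Ω : Type*} [MeasurableSpace Ω] (P : Measure Ω) (κ ρ : ℝ) (ν : ℝ≥0) (γ : ℝ≥0∞)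
    (hκ : 0 < κ) (hρ : 0 < ρ) (_hν : 0 < ν) (hγ : 0 < γ)
    (X : ℝ≥0 → Ω → ℤ) (N : ℤ → Ω → ℕ) (Y : ℤ × ℕ → ℝ≥0 → Ω → ℤ)
    (h : IsTrapModel P κ ρ ν X N Y) :
    (∀ t : ℝ≥0, 0 < t → IsProbabilityMeasure (annealed P γ X N Y t)) ∧
    ∃ c : ℝ, 0 < c ∧ Tendsto (fun t : ℝ≥0 => annealed P γ X N Y t
      {ω | ∀ s ≤ t, |(X s ω : ℝ)| ≤ c * ((t : ℝ) * Real.log t) ^ (1 / 3 : ℝ)}) atTop (𝓝 0) := by
  refine ⟨fun t ht => h.isProbabilityMeasure_annealed hκ.le hρ.le γ ht, ?_⟩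
  obtain ⟨c, hc, h1⟩ := exists_const ν hκ hρ hγ.ne'
  exact ⟨c, hc, h1 h⟩

end Pool.Agent.Results.MP_e5e566_pr.Q1LogLower
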