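import Pool.Agent.Lib.MP_e5e566_pr.Sanity

open MeasureTheory Filter Topology Pool.Agent.Lib.MP_e5e566_pr
open scoped NNReal ENNReal

namespace Pool.Agent.Results.MP_e5e566_pr.Q2NoLimit

/-- Among mobile traps, the laws of the rescaled range endpoints under the annealed measure are
probability measures on the plane which do not converge weakly to any probability measure. -/
theorem result {Ω : Type*} [MeasurableSpace Ω] (P : Measure Ω) (κ ρ : ℝ) (ν : ℝ≥0) (γ : ℝ≥0∞)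
    (hκ : 0 < κ) (hρ : 0 < ρ) (_hν : 0 < ν) (hγ : 0 < γ)
    (X : ℝ≥0 → Ω → ℤ) (N : ℤ → Ω → ℕ) (Y : ℤ × ℕ → ℝ≥0 → Ω → ℤ)
    (h : IsTrapModel P κ ρ ν X N Y) :
    ∃ μ : ℝ≥0 → ProbabilityMeasure (ℝ × ℝ),
      (∀ t, 0 < t → (μ t : Measure (ℝ × ℝ)) = (annealed P γ X N Y t).map (rescaledRange X t)) ∧
      ∀ μ₀ : ProbabilityMeasure (ℝ × ℝ), ¬ Tendsto μ atTop (𝓝 μ₀) :=
  h.no_weak_limit hκ hρ hγ.ne'

end Pool.Agent.Results.MP_e5e566_pr.Q2NoLimit
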